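import Mathlib

namespace Pool.Agent.Results.MP_1231ed_gt.SquareRoots

open Complex

/-- the Gaussian rationals, i.e. `ℚ²` with the Euclidean metric -/
def SA : Set ℂ := {z | ∃ a b : ℚ, z = (a : ℂ) + (b : ℂ) * I}

/-- `√3` times the Gaussian rationals -/
def SB : Set ℂ := {z | ∃ a b : ℚ, z = (Real.sqrt 3 : ℂ) * ((a : ℂ) + (b : ℂ) * I)}

theorem s3 : (Real.sqrt 3 : ℂ) * (Real.sqrt 3 : ℂ) = 3 := by
  rw [← Complex.ofReal_mul, Real.mul_self_sqrt (by norm_num)]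
  norm_num

theorem descent : ∀ (n : ℕ) (m k l : ℤ), l.natAbs ≤ n → 3 * (m ^ 2 + k ^ 2) = l ^ 2 → l = 0 := by
  intro n
  induction n with
  | zero => intro m k l hl _; omega
  | succ n ih =>
    intro m k l hl h
    by_contra hl0
    have h3 : (3 : ℤ) ∣ l := by
      have : (3 : ℤ) ∣ l ^ 2 := ⟨_, h.symm⟩
      exact Int.prime_three.dvd_of_dvd_pow this
    obtain ⟨l', rfl⟩ := h3
    have h4 : m ^ 2 + k ^ 2 = 3 * l' ^ 2 := by nlinarith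
    have key : ∀ m k : ZMod 3, m ^ 2 + k ^ 2 = 0 → m = 0 ∧ k = 0 := by decide
    have h5 : ((m : ZMod 3)) ^ 2 + (k : ZMod 3) ^ 2 = 0 := by
      have := congrArg (Int.cast : ℤ → ZMod 3) h4
      push_cast at this
      rw [this]
      have h30 : (3 : ZMod 3) = 0 := by decide
      rw [h30, zero_mul]
    obtain ⟨hm, hk⟩ := key _ _ h5
    have hm' : (3 : ℤ) ∣ m := (ZMod.intCast_zmod_eq_zero_iff_dvd m 3).mp hm
    have hk' : (3 : ℤ) ∣ k := (ZMod.intCast_zmod_eq_zero_iff_dvd k 3).mp hk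
    obtain ⟨m', rfl⟩ := hm'
    obtain ⟨k', rfl⟩ := hk'
    have h6 : 3 * (m' ^ 2 + k' ^ 2) = l' ^ 2 := by nlinarith
    have h7 := ih m' k' l' (by omega) h6
    rw [h7] at hl0
    exact hl0 (by norm_num)

theorem no_rat (a b : ℚ) : 3 * (a ^ 2 + b ^ 2) ≠ 1 := by
  intro h
  have ha : (a.num : ℚ) = a * a.den := (Rat.mul_den_eq_num a).symm
  have hb : (b.num : ℚ) = b * b.den := (Rat.mul_den_eq_num b).symm
  have h1 : 3 * ((a.num * b.den) ^ 2 + (b.num * a.den) ^ 2) = ((a.den : ℤ) * b.den) ^ 2 := by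
    have : (3 * ((a.num * b.den) ^ 2 + (b.num * a.den) ^ 2) : ℚ) = ((a.den : ℚ) * b.den) ^ 2 := by
      rw [ha, hb]
      linear_combination ((a.den : ℚ) * b.den) ^ 2 * h
    exact_mod_cast this
  have h2 := descent _ _ _ _ le_rfl h1
  have h3 : (a.den : ℤ) * b.den ≠ 0 := by
    have := a.den_nz
    have := b.den_nz
    positivity
  exact h3 h2

theorem norm_id (z w : ℂ) :
    ‖(Real.sqrt 3 : ℂ)⁻¹ * ((1 + I) * z + w)‖ ^ 2 + ‖(Real.sqrt 3 : ℂ)⁻¹ * (-z + (1 - I) * w)‖ ^ 2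
      = ‖z‖ ^ 2 + ‖w‖ ^ 2 := by
  rw [norm_mul, norm_mul, mul_pow, mul_pow, norm_inv]
  have h3 : ‖(Real.sqrt 3 : ℂ)‖ ^ 2 = 3 := by
    rw [Complex.norm_real, Real.norm_eq_abs, sq_abs, Real.sq_sqrt (by norm_num)]
  rw [inv_pow, h3, ← Complex.normSq_eq_norm_sq, ← Complex.normSq_eq_norm_sq,
    ← Complex.normSq_eq_norm_sq, ← Complex.normSq_eq_norm_sq]
  simp only [Complex.normSq_apply, Complex.add_re, Complex.mul_re, Complex.one_re, Complex.I_re,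
    Complex.add_im, Complex.one_im, Complex.I_im, Complex.mul_im, Complex.neg_re, Complex.neg_im,
    Complex.sub_re, Complex.sub_im]
  ring

theorem inv3 (x : ℂ) : (Real.sqrt 3 : ℂ)⁻¹ * x = (Real.sqrt 3 : ℂ) * (x / 3) := by
  have h := s3
  have h0 : (Real.sqrt 3 : ℂ) ≠ 0 := by
    intro h0
    rw [h0] at h
    norm_num at h
  rw [inv_mul_eq_iff_eq_mul₀ h0, ← mul_assoc, h]
  ring

noncomputable def phi (x : SA × SA) : SB × SB :=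
  (⟨(Real.sqrt 3 : ℂ)⁻¹ * ((1 + I) * x.1 + x.2), by
    obtain ⟨a, b, h1⟩ := x.1.2
    obtain ⟨c, d, h2⟩ := x.2.2
    refine ⟨(a - b + c) / 3, (a + b + d) / 3, ?_⟩
    rw [inv3, h1, h2]
    congr 1
    push_cast
    linear_combination (b / 3 : ℂ) * I_sq⟩,
  ⟨(Real.sqrt 3 : ℂ)⁻¹ * (-x.1 + (1 - I) * x.2), by
    obtain ⟨a, b, h1⟩ := x.1.2
    obtain ⟨c, d, h2⟩ := x.2.2
    refine ⟨(-a + c + d) / 3, (-b + d - c) / 3, ?_⟩
    rw [inv3, h1, h2]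
    congr 1
    push_cast
    linear_combination (-d / 3 : ℂ) * I_sq⟩)

theorem phi_iso (x y : SA × SA) :
    dist (phi x).1 (phi y).1 ^ 2 + dist (phi x).2 (phi y).2 ^ 2 =
      dist x.1 y.1 ^ 2 + dist x.2 y.2 ^ 2 := by
  have h := norm_id ((x.1 : ℂ) - y.1) ((x.2 : ℂ) - y.2)
  rw [Subtype.dist_eq, Subtype.dist_eq, Subtype.dist_eq, Subtype.dist_eq, dist_eq_norm,
    dist_eq_norm, dist_eq_norm, dist_eq_norm]
  rw [← h]
  congr 3
  · show (Real.sqrt 3 : ℂ)⁻¹ * ((1 + I) * x.1 + x.2) - (Real.sqrt 3 : ℂ)⁻¹ * ((1 + I) * y.1 + y.2) = _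
    ring
  · show (Real.sqrt 3 : ℂ)⁻¹ * (-x.1 + (1 - I) * x.2) - (Real.sqrt 3 : ℂ)⁻¹ * (-y.1 + (1 - I) * y.2) = _
    ring

theorem phi_surj : Function.Surjective phi := by
  rintro ⟨⟨u, a, b, hu⟩, ⟨v, c, d, hv⟩⟩
  have h0 : (Real.sqrt 3 : ℂ) ≠ 0 := by
    intro h0
    have h := s3
    rw [h0] at h
    norm_num at h
  refine ⟨(⟨(Real.sqrt 3 : ℂ)⁻¹ * ((1 - I) * u - v), a + b - c, b - a - d, ?_⟩,
    ⟨(Real.sqrt 3 : ℂ)⁻¹ * (u + (1 + I) * v), a + c - d, b + c + d, ?_⟩), ?_⟩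
  · rw [inv_mul_eq_iff_eq_mul₀ h0, hu, hv]
    push_cast
    linear_combination (-b * (Real.sqrt 3 : ℂ)) * I_sq
  · rw [inv_mul_eq_iff_eq_mul₀ h0, hu, hv]
    push_cast
    linear_combination (d * (Real.sqrt 3 : ℂ)) * I_sq
  · apply Prod.ext
    · apply Subtype.ext
      show (Real.sqrt 3 : ℂ)⁻¹ * ((1 + I) * ((Real.sqrt 3 : ℂ)⁻¹ * ((1 - I) * u - v)) +
        (Real.sqrt 3 : ℂ)⁻¹ * (u + (1 + I) * v)) = u
      rw [inv_mul_eq_iff_eq_mul₀ h0]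
      have : (1 + I) * ((Real.sqrt 3 : ℂ)⁻¹ * ((1 - I) * u - v)) +
        (Real.sqrt 3 : ℂ)⁻¹ * (u + (1 + I) * v) = (Real.sqrt 3 : ℂ)⁻¹ * (3 * u) := by
        linear_combination (-(Real.sqrt 3 : ℂ)⁻¹ * u) * I_sq
      rw [this, inv_mul_eq_iff_eq_mul₀ h0, ← s3]
      ring
    · apply Subtype.ext
      show (Real.sqrt 3 : ℂ)⁻¹ * (-((Real.sqrt 3 : ℂ)⁻¹ * ((1 - I) * u - v)) +
        (1 - I) * ((Real.sqrt 3 : ℂ)⁻¹ * (u + (1 + I) * v))) = v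
      rw [inv_mul_eq_iff_eq_mul₀ h0]
      have : -((Real.sqrt 3 : ℂ)⁻¹ * ((1 - I) * u - v)) +
        (1 - I) * ((Real.sqrt 3 : ℂ)⁻¹ * (u + (1 + I) * v)) = (Real.sqrt 3 : ℂ)⁻¹ * (3 * v) := by
        linear_combination (-(Real.sqrt 3 : ℂ)⁻¹ * v) * I_sq
      rw [this, inv_mul_eq_iff_eq_mul₀ h0, ← s3]
      ring

/-- There are non-isometric metric spaces with isometric squares (Euclidean product metric). -/
theorem result : ∃ (A B : Type) (_ : MetricSpace A) (_ : MetricSpace B),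
    (∃ φ : A × A → B × B, Function.Bijective φ ∧ ∀ x y : A × A,
      Real.sqrt (dist (φ x).1 (φ y).1 ^ 2 + dist (φ x).2 (φ y).2 ^ 2) =
        Real.sqrt (dist x.1 y.1 ^ 2 + dist x.2 y.2 ^ 2)) ∧
    ¬ ∃ ψ : A → B, Function.Bijective ψ ∧ ∀ x y : A, dist (ψ x) (ψ y) = dist x y := by
  refine ⟨SA, SB, inferInstance, inferInstance, ⟨phi, ⟨?_, phi_surj⟩, ?_⟩, ?_⟩
  · intro x y hxy
    have h := phi_iso x y
    rw [hxy, dist_self, dist_self] at h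
    have h1 : dist x.1 y.1 = 0 := by nlinarith [sq_nonneg (dist x.1 y.1), sq_nonneg (dist x.2 y.2)]
    have h2 : dist x.2 y.2 = 0 := by nlinarith [sq_nonneg (dist x.1 y.1), sq_nonneg (dist x.2 y.2)]
    exact Prod.ext (dist_eq_zero.mp h1) (dist_eq_zero.mp h2)
  · intro x y
    rw [phi_iso]
  · rintro ⟨ψ, -, hψ⟩
    let z0 : SA := ⟨0, 0, 0, by simp⟩
    let z1 : SA := ⟨1, 1, 0, by simp⟩
    have h := hψ z1 z0
    obtain ⟨a, b, h1⟩ := (ψ z1).2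
    obtain ⟨c, d, h2⟩ := (ψ z0).2
    rw [Subtype.dist_eq, Subtype.dist_eq, dist_eq_norm, dist_eq_norm, h1, h2] at h
    have e : (Real.sqrt 3 : ℂ) * ((a : ℂ) + b * I) - (Real.sqrt 3 : ℂ) * ((c : ℂ) + d * I) =
        (Real.sqrt 3 : ℂ) * (((a - c : ℝ) : ℂ) + ((b - d : ℝ) : ℂ) * I) := by
      push_cast; ring
    rw [e] at h
    have h3 : ‖((z1 : SA) : ℂ) - ((z0 : SA) : ℂ)‖ = 1 := by
      show ‖(1 : ℂ) - 0‖ = 1
      simp
    rw [h3] at h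
    have h4 : ‖(Real.sqrt 3 : ℂ) * (((a - c : ℝ) : ℂ) + ((b - d : ℝ) : ℂ) * I)‖ ^ 2 =
        3 * (((a : ℝ) - c) ^ 2 + ((b : ℝ) - d) ^ 2) := by
      rw [← Complex.normSq_eq_norm_sq, Complex.normSq_mul, Complex.normSq_ofReal,
        Complex.normSq_add_mul_I, Real.mul_self_sqrt (by norm_num)]
    rw [h] at h4
    apply no_rat (a - c) (b - d)
    have : (3 * (((a : ℝ) - c) ^ 2 + ((b : ℝ) - d) ^ 2) : ℝ) = 1 := by rw [← h4]; norm_num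
    exact_mod_cast this

end Pool.Agent.Results.MP_1231ed_gt.SquareRoots
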